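import Pool.Agent.P.MP_0dac36_co.HMain

namespace Pool.Agent.Results.MP_0dac36_co.SevenTwelfths

open Pool.Agent.P.MP_0dac36_co

/-- For all large `n`, on every finite graph of maximum degree at most `n` (any number of
vertices) the degree that Maker, moving first, can force at a vertex is at most `7n/12`. -/
theorem result :
    ∃ n₀ : ℕ, ∀ n : ℕ, n₀ ≤ n →
      ∀ (V : Type) [Fintype V] [DecidableEq V] (G : SimpleGraph V) [DecidableRel G.Adj],
        (∀ v : V, G.degree v ≤ n) →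
        ∀ d : ℕ, MakerForces G d true ∅ ∅ → (d : ℝ) ≤ 7 / 12 * (n : ℝ) :=
  HG.seven_twelfths

/-- Q1 as posed is the instance `c = 7/12` on `n`-regular graphs. -/
theorem q1 :
    ∃ c : ℝ, c < 3 / 4 ∧ ∃ n₀ : ℕ, ∀ n : ℕ, n₀ ≤ n →
      ∀ (V : Type) [Fintype V] [DecidableEq V] (G : SimpleGraph V) [DecidableRel G.Adj],
        G.IsRegularOfDegree n →
        ∀ d : ℕ, MakerForces G d true ∅ ∅ → (d : ℝ) ≤ c * (n : ℝ) := by
  obtain ⟨n₀, h⟩ := result
  exact ⟨7 / 12, by norm_num, n₀, fun n hn V _ _ G _ hreg =>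
    h n hn V G fun v => (hreg.degree_eq v).le⟩

end Pool.Agent.Results.MP_0dac36_co.SevenTwelfths
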