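import Pool.Agent.P.MP_0dac36_co.Tower

namespace Pool.Agent.Results.MP_0dac36_co.TowerSparse

open Pool.Agent.P.MP_0dac36_co

/-- For every height `h` and every `ε > 0` there are `δ > 0` and `n₀` such that, for `n ≥ n₀`:
if `G` has maximum degree at most `n`, every set `S` of at most `s` vertices spans at most
`δ n |S|` edges, and `G` has at most `tower h (s + n)` vertices, then Maker cannot force a degree
above `(1/2 + ε) n`. -/
theorem result (h : ℕ) (ε : ℝ) (hε : 0 < ε) :
    ∃ δ : ℝ, 0 < δ ∧ ∃ n₀ : ℕ, ∀ n : ℕ, n₀ ≤ n →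
      ∀ (V : Type) [Fintype V] [DecidableEq V] (G : SimpleGraph V) [DecidableRel G.Adj] (s : ℕ),
        (∀ v : V, G.degree v ≤ n) →
        (∀ S : Finset V, S.card ≤ s →
          (((G.edgeFinset ∩ S.sym2).card : ℕ) : ℝ) ≤ δ * (n : ℝ) * (S.card : ℝ)) →
        Fintype.card V ≤ tower h (s + n) →
        ∀ d : ℕ, MakerForces G d true ∅ ∅ → (d : ℝ) ≤ (1 / 2 + ε) * (n : ℝ) := by
  obtain ⟨δ, hδ, s0, n0, H⟩ := tower_safe (h + 1) 1 ε hε
  obtain ⟨s1, hs1⟩ := exists_sq_le_exp (c := Real.log 2) (Real.log_pos one_lt_two) (1 + 2 / δ)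
  obtain ⟨n1, hn1⟩ := exists_nat_ge (((max 1 (max s0 s1) : ℕ) + 1 : ℝ) / δ)
  refine ⟨δ, hδ, max n0 n1, fun n hn V _ _ G _ s hdeg hsp hN d hM => ?_⟩
  have hn1' : ((max 1 (max s0 s1) : ℕ) + 1 : ℝ) ≤ δ * n := by
    have : (n1 : ℝ) ≤ n := by exact_mod_cast (le_max_right _ _).trans hn
    have h2 := hn1.trans this
    rw [div_le_iff₀ hδ] at h2
    linarith
  set t := ⌊δ * n⌋₊ with ht
  have ht1 : max 1 (max s0 s1) ≤ t := Nat.le_floor (by linarith)
  have ht2 : (t : ℝ) ≤ δ * n := Nat.floor_le (by positivity)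
  have ht3 : δ * n < t + 1 := Nat.lt_floor_add_one _
  set s' := max s t with hs'
  have hes : ∀ S : Finset V, es G.edgeFinset S = ((G.edgeFinset ∩ S.sym2).card : ℝ) := by
    intro S
    classical
    rw [es, cnt_eq_card]
    congr 2
    ext e
    simp only [Finset.mem_filter, Finset.mem_inter, Finset.mem_sym2_iff]
  have hdg : ∀ v, dg G.edgeFinset v = G.degree v := by
    intro v
    rw [dg, cnt_eq_card, ← SimpleGraph.card_incidenceFinset_eq_degree,
      SimpleGraph.incidenceFinset_eq_filter]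
  have hsp' : ∀ S : Finset V, S.card ≤ s' → es G.edgeFinset S ≤ δ * n * S.card := by
    intro S hS
    rcases le_max_iff.1 hS with h1 | h1
    · rw [hes]; exact hsp S h1
    · have h2 : es G.edgeFinset S ≤ (S.card : ℝ) * S.card := by
        rw [hes]
        have h3 : (G.edgeFinset ∩ S.sym2).card ≤ S.card * S.card := by
          refine (Finset.card_le_card Finset.inter_subset_right).trans ?_
          rw [Finset.sym2_eq_image]
          exact Finset.card_image_le.trans (by rw [Finset.card_product])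
        exact_mod_cast h3
      have h3 : (S.card : ℝ) ≤ δ * n := le_trans (by exact_mod_cast h1) ht2
      exact h2.trans (mul_le_mul_of_nonneg_right h3 (Nat.cast_nonneg _))
  have hs2 : s + n ≤ 2 ^ s' := by
    have h1 : 1 ≤ t := (le_max_left _ _).trans ht1
    have h2 : t ≤ s' := le_max_right _ _
    have h3 : s ≤ s' := le_max_left _ _
    have h4 := hs1 s' ((le_max_right _ _).trans ((le_max_right _ _).trans (ht1.trans h2)))
    rw [mul_comm (Real.log 2), Real.exp_nat_mul, Real.exp_log two_pos] at h4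
    have h1R : (1 : ℝ) ≤ t := by exact_mod_cast h1
    have h2R : (t : ℝ) ≤ s' := by exact_mod_cast h2
    have h3R : (s : ℝ) ≤ s' := by exact_mod_cast h3
    have h5 : (n : ℝ) ≤ 2 / δ * s' := by
      rw [div_mul_eq_mul_div, le_div_iff₀ hδ]; linarith
    have h6 : (1 + 2 / δ) * (s' : ℝ) ≤ (1 + 2 / δ) * (s' : ℝ) ^ 2 :=
      mul_le_mul_of_nonneg_left (by nlinarith) (by positivity)
    have h7 : (s : ℝ) + n ≤ 2 ^ s' := by linarith
    exact_mod_cast h7
  have hS := H n ((le_max_left _ _).trans hn) s'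
    ((le_max_left _ _).trans ((le_max_right _ _).trans (ht1.trans (le_max_right _ _)))) V
    G.edgeFinset Finset.univ (fun _ _ _ _ => Finset.mem_univ _)
    (fun v => by rw [hdg]; exact_mod_cast hdeg v) hsp' (by
      rw [one_mul, tower_succ', Finset.card_univ]
      exact hN.trans (tower_mono h hs2))
  by_contra hc
  push Not at hc
  refine Safe.not_forces G d true ∅ ∅ hM _ _ hS (fun v => ?_)
    (fun _ e he _ _ => SimpleGraph.mem_edgeFinset.2 he) (fun h => by simp at h)
  have h1 : dg (∅ : Finset (Sym2 V)) v = 0 := cnt_eq_zero fun e he => by simp at he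
  have h2 : (G.degree v : ℝ) ≤ n := by exact_mod_cast hdeg v
  rw [h1, hdg]
  linarith

end Pool.Agent.Results.MP_0dac36_co.TowerSparse
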